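import Pool.Agent.Lib.MP_579095_an.Fell
import Pool.Agent.Lib.MP_579095_an.Join

set_option autoImplicit false

namespace Pool.Agent.Results.MP_579095_an.FullEqualsReduced

open Pool.Agent.Lib.MP_579095_an MeasureTheory
open scoped ENNReal

universe u v w

/-- For every finite group `G`, every isometric action of `G` on a Banach algebra `A` and every
`p ∈ [1, ∞)`, the full and the reduced norm agree on `C(G, A, α)`. -/
theorem result (p : ℝ≥0∞) [Fact (1 ≤ p)] (hp : p ≠ ∞) (G : Type v) [Group G] [Fintype G]
    (A : Type w) [NonUnitalNormedRing A] [NormedSpace ℂ A] [CompleteSpace A]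
    (α : IsometricAction G A) (a : G → A) :
    reducedNorm.{u} α p a = fullNorm.{u} α p a := by
  apply le_antisymm
  · unfold reducedNorm
    refine iSup_le fun X => iSup_le fun mX => iSup_le fun μ => iSup_le fun hμ => ?_
    unfold regularNormOn
    refine iSup_le fun π₀ => ?_
    let _ : MeasurableSpace (Fin (Fintype.card G)) := ⊤
    set e : (PiLp p fun _ : G => Lp ℂ p μ) ≃ₗᵢ[ℂ]
        Lp ℂ p (copies (Fin (Fintype.card G)) μ) :=
      (LinearIsometryEquiv.piLpCongrLeft p ℂ (Lp ℂ p μ) (Fintype.equivFin G)).trans
        (glueEquiv hp μ) with he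
    have h1 : ‖(regular α p π₀).integrated a‖ₑ ≤ ‖((regular α p π₀).conj e).integrated a‖ₑ := by
      rw [enorm_le_iff_norm_le]
      exact conj_integrated_norm _ e a
    rw [opN_regular]
    refine h1.trans ?_
    rw [← opN_integrated]
    unfold fullNorm fullNormOn
    exact le_iSup_of_le (Fin (Fintype.card G) × X) <| le_iSup_of_le inferInstance <|
      le_iSup_of_le (copies (Fin (Fintype.card G)) μ) <| le_iSup_of_le inferInstance <|
      le_iSup_of_le ((regular α p π₀).conj e) le_rfl
  · unfold fullNorm
    refine iSup_le fun X => iSup_le fun mX => iSup_le fun μ => iSup_le fun hμ => ?_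
    unfold fullNormOn
    refine iSup_le fun R => ?_
    have h1 : ‖R.integrated a‖ₑ ≤ ‖(regular α p R.rep).integrated a‖ₑ := by
      rw [enorm_le_iff_norm_le]
      exact norm_integrated_le_regular p R a
    rw [opN_integrated]
    refine h1.trans ?_
    rw [← opN_regular]
    unfold reducedNorm regularNormOn
    exact le_iSup_of_le X <| le_iSup_of_le mX <| le_iSup_of_le μ <| le_iSup_of_le hμ <|
      le_iSup_of_le R.rep le_rfl

end Pool.Agent.Results.MP_579095_an.FullEqualsReduced
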